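import Mathlib

/-!
General lemmas for the example of an F-noetherian ring that is not directed F-noetherian.
-/

set_option autoImplicit false

namespace Pool.Agent.E8helper61.FN

/-- Chain lemma. -/
theorem chain {T : Type*} [Ring T] [IsNoetherianRing T] {K : Type*} [Field K]
    (V : ValuationSubring K) (ev : T →+ K) (θ : T → K) (g : ℕ → T) (t : K)
    (h : ∀ c j, ev (c * g j) = θ c * t ^ j) (hθ : ∀ c, θ c ∈ V) (h1 : θ 1 = 1) : t ∈ V := by
  by_contra ht
  have hti : t⁻¹ ∈ V := (V.mem_or_inv_mem t).resolve_left ht
  have ht0 : t ≠ 0 := fun h0 => ht (h0 ▸ V.zero_mem)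
  let f : ℕ →o Submodule T T :=
    ⟨fun n => Submodule.span T (g '' Set.Iic n), fun a b hab =>
      Submodule.span_mono (Set.image_mono (Set.Iic_subset_Iic.2 hab))⟩
  obtain ⟨n, hn⟩ := monotone_stabilizes_iff_noetherian.2 (inferInstance : IsNoetherian T T) f
  have hg : g (n + 1) ∈ f n := by
    rw [hn (n + 1) (Nat.le_succ n)]
    exact Submodule.subset_span ⟨n + 1, Set.mem_Iic.2 le_rfl, rfl⟩
  have key : ∀ y ∈ Submodule.span T (g '' Set.Iic n), ∀ c, ev (c * y) * (t⁻¹) ^ n ∈ V := by
    intro y hy
    induction hy using Submodule.span_induction with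
    | mem y hy =>
      obtain ⟨j, hj, rfl⟩ := hy
      intro c
      rw [h, mul_assoc]
      refine V.mul_mem _ _ (hθ c) ?_
      have hj' : j ≤ n := hj
      have : t ^ j * t⁻¹ ^ n = t⁻¹ ^ (n - j) := by
        obtain ⟨k, rfl⟩ := Nat.exists_eq_add_of_le hj'
        rw [Nat.add_sub_cancel_left, pow_add, ← mul_assoc, ← mul_pow, mul_inv_cancel₀ ht0,
          one_pow, one_mul]
      rw [this]
      exact pow_mem hti _
    | zero => intro c; simp [V.zero_mem]
    | add x y _ _ hx hy =>
      intro c
      rw [mul_add, map_add, add_mul]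
      exact V.add_mem _ _ (hx c) (hy c)
    | smul a x _ hx =>
      intro c
      rw [smul_eq_mul, ← mul_assoc]
      exact hx (c * a)
  have h2 := key _ hg 1
  rw [h, h1, one_mul, pow_succ', mul_assoc, ← mul_pow, mul_inv_cancel₀ ht0, one_pow, mul_one] at h2
  exact ht h2

/-- A commutative ring generated by a finite set and inverses of elements of the subring generated by
this set is noetherian. -/
theorem noeth_closure_inv {A : Type*} [CommRing A] (Y : Set A) (hY : Y.Finite) (Z : Set A)
    (hZ : ∀ z ∈ Z, ∃ y ∈ Subring.closure Y, y * z = 1) :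
    IsNoetherianRing (Subring.closure (Y ∪ Z)) := by
  have hO : IsNoetherianRing (Subring.closure Y) := is_noetherian_subring_closure Y hY
  have hle : Subring.closure Y ≤ Subring.closure (Y ∪ Z) := Subring.closure_mono Set.subset_union_left
  let inc : Subring.closure Y →+* Subring.closure (Y ∪ Z) := Subring.inclusion hle
  let M : Submonoid (Subring.closure Y) := (IsUnit.submonoid (Subring.closure (Y ∪ Z))).comap inc
  have hM : ∀ y : M, IsUnit (inc y) := fun y => y.2
  let φ : Localization M →+* Subring.closure (Y ∪ Z) := IsLocalization.lift hM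
  have hφ : Function.Surjective φ := by
    have hr : ∀ x ∈ Subring.closure (Y ∪ Z), ∀ hx : x ∈ Subring.closure (Y ∪ Z),
        (⟨x, hx⟩ : Subring.closure (Y ∪ Z)) ∈ φ.range := by
      intro x hx
      induction hx using Subring.closure_induction with
      | mem x hx' =>
        intro hx
        rcases hx' with hy | hz
        · refine ⟨algebraMap _ _ (⟨x, Subring.subset_closure hy⟩ : Subring.closure Y), ?_⟩
          rw [IsLocalization.lift_eq]
          rfl
        · obtain ⟨y, hy, hyz⟩ := hZ x hz
          have hu : IsUnit (inc ⟨y, hy⟩) := by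
            refine IsUnit.of_mul_eq_one ⟨x, hx⟩ ?_
            apply Subtype.ext
            exact hyz
          let m : M := ⟨⟨y, hy⟩, hu⟩
          refine ⟨IsLocalization.mk' (Localization M) 1 m, ?_⟩
          rw [IsLocalization.lift_mk'_spec, map_one]
          apply Subtype.ext
          exact hyz.symm
      | zero => intro hx; exact φ.range.zero_mem
      | one => intro hx; exact φ.range.one_mem
      | add x y hx hy h1 h2 => intro _; exact φ.range.add_mem (h1 hx) (h2 hy)
      | neg x hx h1 => intro _; exact φ.range.neg_mem (h1 hx)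
      | mul x y hx hy h1 h2 => intro _; exact φ.range.mul_mem (h1 hx) (h2 hy)
    intro x
    exact hr x.1 x.2 x.2
  have hN : IsNoetherianRing (Localization M) := IsLocalization.isNoetherianRing M _ hO
  exact isNoetherianRing_of_surjective _ _ φ hφ

/-- A ring which is finite as a left module over a commutative noetherian ring is left noetherian. -/
theorem noeth_of_span {A T : Type*} [CommRing A] [IsNoetherianRing A] [Ring T] (φ : A →+* T)
    (G : Set T) (hG : G.Finite)
    (h : ∀ t : T, t ∈ AddSubmonoid.closure {x : T | ∃ a : A, ∃ g ∈ G, x = φ a * g}) :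
    IsNoetherianRing T := by
  letI : Module A T := Module.compHom T φ
  have hsm : ∀ (a : A) (t : T), a • t = φ a * t := fun a t => rfl
  haveI : IsScalarTower A T T := ⟨fun a x y => by rw [hsm, hsm, smul_eq_mul, smul_eq_mul, mul_assoc]⟩
  haveI : Module.Finite A T := by
    refine ⟨⟨hG.toFinset, ?_⟩⟩
    rw [eq_top_iff]
    intro t _
    have := h t
    induction this using AddSubmonoid.closure_induction with
    | mem x hx =>
      obtain ⟨a, g, hg, rfl⟩ := hx
      rw [← hsm]
      exact Submodule.smul_mem _ _ (Submodule.subset_span (by simpa using hg))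
    | zero => exact Submodule.zero_mem _
    | add x y _ _ hx hy => exact Submodule.add_mem _ (hx trivial) (hy trivial)
  haveI : IsNoetherian A T := isNoetherian_of_isNoetherianRing_of_finite A T
  exact isNoetherian_of_tower A this

end Pool.Agent.E8helper61.FN
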