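import Pool.Agent.E8helper61.FN.Basic

/-!
Trivial extensions of a commutative ring `Δ` by sums of copies of a field `K` on which `Δ` acts from
the left through `l i` and from the right through `r i`.
-/

set_option autoImplicit false

namespace Pool.Agent.E8helper61.FN

open TrivSqZeroExt

/-- The additive group of `K` as a `Δ`-bimodule through two ring homomorphisms. -/
def Bi {Δ K : Type} [CommRing Δ] [Field K] (_l _r : Δ →+* K) : Type := K

section
variable {Δ K : Type} [CommRing Δ] [Field K] (l r : Δ →+* K)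

instance : AddCommGroup (Bi l r) := inferInstanceAs (AddCommGroup K)

/-- the identity -/
def Bi.val : Bi l r →+ K := AddMonoidHom.id K

/-- the identity -/
def Bi.mk : K →+ Bi l r := AddMonoidHom.id K

instance : Module Δ (Bi l r) := Module.compHom K l

instance : Module Δᵐᵒᵖ (Bi l r) :=
  Module.compHom K (r.fromOpposite (fun x y => Commute.all _ _))

theorem Bi.val_mk (x : K) : Bi.val l r (Bi.mk l r x) = x := rfl

theorem Bi.mk_val (x : Bi l r) : Bi.mk l r (Bi.val l r x) = x := rfl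

theorem Bi.val_smul (a : Δ) (x : Bi l r) : Bi.val l r (a • x) = l a * Bi.val l r x := rfl

theorem Bi.val_op_smul (a : Δ) (x : Bi l r) :
    Bi.val l r (MulOpposite.op a • x) = r a * Bi.val l r x := rfl

theorem Bi.val_inj {x y : Bi l r} (h : Bi.val l r x = Bi.val l r y) : x = y := h

instance : SMulCommClass Δ Δᵐᵒᵖ (Bi l r) := ⟨by
  intro a b x
  apply Bi.val_inj
  obtain ⟨b, rfl⟩ := MulOpposite.op_surjective b
  rw [Bi.val_smul, Bi.val_op_smul, Bi.val_op_smul, Bi.val_smul]
  ring⟩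

end

section
variable {Δ K Λ : Type} [CommRing Δ] [Field K] (l r : Λ → Δ →+* K)

/-- The trivial extension. -/
abbrev RR : Type := TrivSqZeroExt Δ (Π₀ i : Λ, Bi (l i) (r i))

variable {l r}

/-- The component `i` of the second coordinate as an element of `K`. -/
def co (i : Λ) : RR l r →+ K where
  toFun x := Bi.val _ _ (x.snd i)
  map_zero' := rfl
  map_add' x y := by simp

theorem co_apply (i : Λ) (x : RR l r) : co i x = Bi.val _ _ (x.snd i) := rfl

theorem co_mul (i : Λ) (x y : RR l r) :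
    co i (x * y) = l i x.fst * co i y + co i x * r i y.fst := by
  rw [co_apply, co_apply, co_apply, snd_mul, DFinsupp.add_apply, map_add, DFinsupp.smul_apply,
    DFinsupp.smul_apply, Bi.val_smul, Bi.val_op_smul]
  ring

variable [DecidableEq Λ]

/-- The generator. -/
noncomputable def ge (i : Λ) (x : K) : RR l r := inr (DFinsupp.single i (Bi.mk _ _ x))

theorem ge_fst (i : Λ) (x : K) : (ge i x : RR l r).fst = 0 := rfl

theorem co_ge (i : Λ) (x : K) : co i (ge i x : RR l r) = x := by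
  rw [co_apply, ge, snd_inr, DFinsupp.single_eq_same, Bi.val_mk]

theorem co_ge_ne (i j : Λ) (h : j ≠ i) (x : K) : co j (ge i x : RR l r) = 0 := by
  rw [co_apply, ge, snd_inr, DFinsupp.single_eq_of_ne (by tauto), map_zero]

theorem RR_ext {x y : RR l r} (h1 : x.fst = y.fst) (h2 : ∀ i, co i x = co i y) : x = y := by
  apply TrivSqZeroExt.ext h1
  ext i
  exact Bi.val_inj _ _ (h2 i)

/-- A noetherian subring containing the generator at `i`: left noetherian. -/
theorem nec_left (S : Subring (RR l r)) (hS : IsNoetherianRing S) (i : Λ) (V : ValuationSubring K)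
    (hg : (ge i 1 : RR l r) ∈ S) (hl : ∀ x ∈ S, l i x.fst ∈ V) : ∀ x ∈ S, r i x.fst ∈ V := by
  intro x hx
  refine chain (T := S) V ((co i).comp S.subtype.toAddMonoidHom) (fun c => l i c.1.fst)
    (fun j => ⟨ge i 1 * x ^ j, S.mul_mem hg (S.pow_mem hx j)⟩) (r i x.fst) ?_ (fun c => hl c.1 c.2)
    (by simp)
  intro c j
  have h1 : ((co i).comp S.subtype.toAddMonoidHom)
      (c * ⟨ge i 1 * x ^ j, S.mul_mem hg (S.pow_mem hx j)⟩) = co i (c.1 * (ge i 1 * x ^ j)) := rfl
  rw [h1, co_mul, co_mul, co_ge, ge_fst, map_zero, zero_mul, zero_add, one_mul, fst_mul, ge_fst,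
    zero_mul, map_zero, mul_zero, add_zero, fst_pow, map_pow]

/-- A noetherian subring containing the generator at `i`: right noetherian. -/
theorem nec_right (S : Subring (RR l r)) (hS : IsNoetherianRing Sᵐᵒᵖ) (i : Λ)
    (V : ValuationSubring K)
    (hg : (ge i 1 : RR l r) ∈ S) (hr : ∀ x ∈ S, r i x.fst ∈ V) : ∀ x ∈ S, l i x.fst ∈ V := by
  intro x hx
  refine chain (T := Sᵐᵒᵖ) V (((co i).comp S.subtype.toAddMonoidHom).comp
      (MulOpposite.opAddEquiv.symm : (Sᵐᵒᵖ) ≃+ S).toAddMonoidHom) (fun c => r i c.unop.1.fst)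
    (fun j => MulOpposite.op ⟨x ^ j * ge i 1, S.mul_mem (S.pow_mem hx j) hg⟩) (l i x.fst) ?_
    (fun c => hr c.unop.1 c.unop.2) (by simp)
  intro c j
  have h1 : (((co i).comp S.subtype.toAddMonoidHom).comp
      (MulOpposite.opAddEquiv.symm : (Sᵐᵒᵖ) ≃+ S).toAddMonoidHom)
      (c * MulOpposite.op ⟨x ^ j * ge i 1, S.mul_mem (S.pow_mem hx j) hg⟩)
      = co i ((x ^ j * ge i 1) * c.unop.1) := rfl
  rw [h1, co_mul, co_mul, co_ge, ge_fst, map_zero, mul_zero, mul_one, fst_mul, ge_fst, mul_zero,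
    map_zero, zero_mul, zero_add, add_zero, fst_pow, map_pow, mul_comm]

theorem inl_mul_ge (a : Δ) (i : Λ) (x : K) : (inl a : RR l r) * ge i x = ge i (l i a * x) := by
  apply RR_ext
  · simp [ge_fst]
  · intro j
    by_cases hj : j = i
    · subst hj
      rw [co_mul, co_ge, co_ge, ge_fst, fst_inl, map_zero, mul_zero, add_zero]
    · rw [co_mul, co_ge_ne _ _ hj, co_ge_ne _ _ hj, ge_fst, map_zero, mul_zero, mul_zero, add_zero]

theorem ge_mul_inl (a : Δ) (i : Λ) (x : K) : ge i x * (inl a : RR l r) = ge i (x * r i a) := by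
  have h0 : ∀ j, co j (inl a : RR l r) = 0 := fun j => rfl
  apply RR_ext
  · simp [ge_fst]
  · intro j
    by_cases hj : j = i
    · subst hj
      rw [co_mul, co_ge, co_ge, ge_fst, fst_inl, map_zero, h0, mul_zero, zero_add]
    · rw [co_mul, co_ge_ne _ _ hj, co_ge_ne _ _ hj, ge_fst, h0, zero_mul, mul_zero, add_zero]

theorem ge_add (i : Λ) (x y : K) : (ge i (x + y) : RR l r) = ge i x + ge i y := by
  rw [ge, ge, ge, ← inr_add, ← DFinsupp.single_add, map_add]

theorem ge_zero (i : Λ) : (ge i 0 : RR l r) = 0 := by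
  rw [ge, map_zero, DFinsupp.single_zero, inr_zero]

/-- Decomposition of an element. -/
theorem decomp (I : Finset Λ) (x : RR l r) (h : ∀ i ∉ I, co i x = 0) :
    x = inl x.fst + ∑ i ∈ I, ge i (co i x) := by
  have hf : ∀ J : Finset Λ, (∑ i ∈ J, (ge i (co i x) : RR l r)).fst = 0 := by
    intro J
    induction J using Finset.induction with
    | empty => simp
    | insert a s ha ih => rw [Finset.sum_insert ha, fst_add, ih, ge_fst, add_zero]
  apply RR_ext
  · rw [fst_add, fst_inl, hf, add_zero]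
  · intro j
    rw [map_add, map_sum]
    have h0 : co j (inl x.fst : RR l r) = 0 := rfl
    rw [h0, zero_add]
    by_cases hj : j ∈ I
    · rw [Finset.sum_eq_single j, co_ge]
      · intro b _ hb
        exact co_ge_ne _ _ hb.symm _
      · intro h'; exact absurd hj h'
    · rw [h j hj, Finset.sum_eq_zero]
      intro b hb
      refine co_ge_ne _ _ ?_ _
      rintro rfl
      exact hj hb

/-- Noetherian subrings of the trivial extension. -/
theorem suff (Δ0 : Subring Δ) (hΔ : IsNoetherianRing Δ0) (I : Finset Λ)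
    (hI : ∀ i ∈ I, Δ0.map (l i) = Δ0.map (r i)) (X : Finset (RR l r)) (hX : ∀ x ∈ X, x.fst ∈ Δ0)
    (hs : ∀ x ∈ X, ∀ i ∉ I, co i x = 0) :
    ∃ S : Subring (RR l r), (X : Set (RR l r)) ⊆ S ∧ IsNoetherianRing S ∧
      IsNoetherianRing Sᵐᵒᵖ := by
  classical
  -- the module of second coordinates
  let N : ∀ i, Submodule (Δ0.map (l i)) K := fun i =>
    Submodule.span (Δ0.map (l i)) ((fun x => co i x) '' (X : Set (RR l r)))
  have hNl : ∀ i, ∀ a ∈ Δ0, ∀ q ∈ N i, l i a * q ∈ N i := by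
    intro i a ha q hq
    exact (N i).smul_mem ⟨l i a, ⟨a, ha, rfl⟩⟩ hq
  have hN0 : ∀ i ∉ I, ∀ q ∈ N i, q = 0 := by
    intro i hi q hq
    have : N i = ⊥ := by
      rw [Submodule.span_eq_bot]
      rintro _ ⟨x, hx, rfl⟩
      exact hs x hx i hi
    rw [this] at hq
    exact (Submodule.mem_bot _).1 hq
  have hNr : ∀ i, ∀ a ∈ Δ0, ∀ q ∈ N i, q * r i a ∈ N i := by
    intro i a ha q hq
    by_cases hi : i ∈ I
    · have h1 : r i a ∈ Δ0.map (l i) := by rw [hI i hi]; exact ⟨a, ha, rfl⟩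
      obtain ⟨b, hb, hb'⟩ := h1
      rw [← hb', mul_comm]
      exact hNl i b hb q hq
    · rw [hN0 i hi q hq, zero_mul]; exact (N i).zero_mem
  let S : Subring (RR l r) :=
    { carrier := {x | x.fst ∈ Δ0 ∧ ∀ i, co i x ∈ N i}
      mul_mem' := by
        rintro x y ⟨hx1, hx2⟩ ⟨hy1, hy2⟩
        refine ⟨by rw [fst_mul]; exact Δ0.mul_mem hx1 hy1, fun i => ?_⟩
        rw [co_mul]
        exact (N i).add_mem (hNl i _ hx1 _ (hy2 i)) (hNr i _ hy1 _ (hx2 i))
      one_mem' := ⟨Δ0.one_mem, fun i => (N i).zero_mem⟩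
      add_mem' := by
        rintro x y ⟨hx1, hx2⟩ ⟨hy1, hy2⟩
        refine ⟨by rw [fst_add]; exact Δ0.add_mem hx1 hy1, fun i => ?_⟩
        rw [map_add]
        exact (N i).add_mem (hx2 i) (hy2 i)
      zero_mem' := ⟨Δ0.zero_mem, fun i => by rw [map_zero]; exact (N i).zero_mem⟩
      neg_mem' := by
        rintro x ⟨hx1, hx2⟩
        refine ⟨by rw [fst_neg]; exact Δ0.neg_mem hx1, fun i => ?_⟩
        rw [map_neg]
        exact (N i).neg_mem (hx2 i) }
  have hinl : ∀ a ∈ Δ0, (inl a : RR l r) ∈ S := fun a ha => ⟨ha, fun i => (N i).zero_mem⟩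
  have hge : ∀ i, ∀ q ∈ N i, (ge i q : RR l r) ∈ S := by
    intro i q hq
    refine ⟨Δ0.zero_mem, fun j => ?_⟩
    by_cases hj : j = i
    · subst hj; rw [co_ge]; exact hq
    · rw [co_ge_ne _ _ hj]; exact (N j).zero_mem
  -- generators
  let G : Set (RR l r) := insert 1 (⋃ i ∈ I, (fun x => ge i (co i x)) '' (X : Set (RR l r)))
  have hGf : G.Finite := by
    refine Set.Finite.insert _ (Set.Finite.biUnion I.finite_toSet fun i _ => ?_)
    exact X.finite_toSet.image _
  have hGS : G ⊆ S := by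
    rintro g (rfl | hg)
    · exact S.one_mem
    · simp only [Set.mem_iUnion] at hg
      obtain ⟨i, _, x, hx, rfl⟩ := hg
      exact hge i _ (Submodule.subset_span ⟨x, hx, rfl⟩)
  let G' : Set S := Subtype.val ⁻¹' G
  have hG'f : G'.Finite := hGf.preimage Subtype.val_injective.injOn
  let φ : Δ0 →+* S :=
    { toFun := fun a => ⟨inl a.1, hinl a.1 a.2⟩
      map_one' := rfl
      map_mul' := fun a b => Subtype.ext (by simp [inl_mul])
      map_zero' := rfl
      map_add' := fun a b => Subtype.ext (by simp [inl_add]) }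
  let φ' : Δ0 →+* Sᵐᵒᵖ :=
    { toFun := fun a => MulOpposite.op ⟨inl a.1, hinl a.1 a.2⟩
      map_one' := rfl
      map_mul' := fun a b => by
        apply MulOpposite.unop_injective
        apply Subtype.ext
        simp [inl_mul, ← inl_mul, mul_comm]
      map_zero' := rfl
      map_add' := fun a b => by
        apply MulOpposite.unop_injective
        apply Subtype.ext
        simp [inl_add] }
  -- left and right generation
  have hL : ∀ i ∈ I, ∀ q ∈ N i, ∀ hq : (ge i q : RR l r) ∈ S, (⟨ge i q, hq⟩ : S) ∈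
      AddSubmonoid.closure {x : S | ∃ a : Δ0, ∃ g ∈ G', x = φ a * g} := by
    intro i hi q hq
    induction hq using Submodule.span_induction with
    | mem q hq' =>
      obtain ⟨x, hx, rfl⟩ := hq'
      intro hq
      refine AddSubmonoid.subset_closure ⟨1, ⟨ge i (co i x), hq⟩, ?_, ?_⟩
      · right
        simp only [Set.mem_iUnion]
        exact ⟨i, hi, x, hx, rfl⟩
      · rw [map_one, one_mul]
    | zero =>
      intro hq
      have : (⟨ge i 0, hq⟩ : S) = 0 := Subtype.ext (ge_zero i)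
      rw [this]; exact AddSubmonoid.zero_mem _
    | add x y hx hy h1 h2 =>
      intro hq
      have : (⟨ge i (x + y), hq⟩ : S) = ⟨ge i x, hge i x hx⟩ + ⟨ge i y, hge i y hy⟩ :=
        Subtype.ext (ge_add i x y)
      rw [this]
      exact AddSubmonoid.add_mem _ (h1 _) (h2 _)
    | smul a x hx h1 =>
      intro hq
      obtain ⟨b, hb, hb'⟩ := a.2
      have : (⟨ge i (a • x), hq⟩ : S) = φ ⟨b, hb⟩ * ⟨ge i x, hge i x hx⟩ := by
        apply Subtype.ext
        change ge i (a • x) = inl b * ge i x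
        rw [inl_mul_ge, hb']
        rfl
      rw [this]
      have h2 := h1 (hge i x hx)
      generalize (⟨ge i x, hge i x hx⟩ : S) = w at h2 ⊢
      induction h2 using AddSubmonoid.closure_induction with
      | mem y hy =>
        obtain ⟨c, g, hg, rfl⟩ := hy
        refine AddSubmonoid.subset_closure ⟨⟨b, hb⟩ * c, g, hg, ?_⟩
        rw [map_mul, mul_assoc]
      | zero => rw [mul_zero]; exact AddSubmonoid.zero_mem _
      | add y z _ _ h3 h4 => rw [mul_add]; exact AddSubmonoid.add_mem _ h3 h4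
  have hR : ∀ i ∈ I, ∀ q ∈ N i, ∀ hq : (ge i q : RR l r) ∈ S, (MulOpposite.op ⟨ge i q, hq⟩ : Sᵐᵒᵖ) ∈
      AddSubmonoid.closure {x : Sᵐᵒᵖ | ∃ a : Δ0, ∃ g ∈ (MulOpposite.unop ⁻¹' G' : Set Sᵐᵒᵖ),
        x = φ' a * g} := by
    intro i hi q hq
    induction hq using Submodule.span_induction with
    | mem q hq' =>
      obtain ⟨x, hx, rfl⟩ := hq'
      intro hq
      refine AddSubmonoid.subset_closure ⟨1, MulOpposite.op ⟨ge i (co i x), hq⟩, ?_, ?_⟩
      · right
        simp only [Set.mem_iUnion]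
        exact ⟨i, hi, x, hx, rfl⟩
      · rw [map_one, one_mul]
    | zero =>
      intro hq
      have : (MulOpposite.op ⟨ge i 0, hq⟩ : Sᵐᵒᵖ) = 0 := by
        apply MulOpposite.unop_injective
        exact Subtype.ext (ge_zero i)
      rw [this]; exact AddSubmonoid.zero_mem _
    | add x y hx hy h1 h2 =>
      intro hq
      have : (MulOpposite.op ⟨ge i (x + y), hq⟩ : Sᵐᵒᵖ) =
          MulOpposite.op ⟨ge i x, hge i x hx⟩ + MulOpposite.op ⟨ge i y, hge i y hy⟩ := by
        apply MulOpposite.unop_injective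
        exact Subtype.ext (ge_add i x y)
      rw [this]
      exact AddSubmonoid.add_mem _ (h1 _) (h2 _)
    | smul a x hx h1 =>
      intro hq
      obtain ⟨b, hb, hb'⟩ : (a : K) ∈ Δ0.map (r i) := by rw [← hI i hi]; exact a.2
      have : (MulOpposite.op ⟨ge i (a • x), hq⟩ : Sᵐᵒᵖ) =
          φ' ⟨b, hb⟩ * MulOpposite.op ⟨ge i x, hge i x hx⟩ := by
        apply MulOpposite.unop_injective
        apply Subtype.ext
        change ge i (a • x) = ge i x * inl b
        rw [ge_mul_inl, hb', mul_comm]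
        rfl
      rw [this]
      have h2 := h1 (hge i x hx)
      generalize (MulOpposite.op ⟨ge i x, hge i x hx⟩ : Sᵐᵒᵖ) = w at h2 ⊢
      induction h2 using AddSubmonoid.closure_induction with
      | mem y hy =>
        obtain ⟨c, g, hg, rfl⟩ := hy
        refine AddSubmonoid.subset_closure ⟨⟨b, hb⟩ * c, g, hg, ?_⟩
        rw [map_mul, mul_assoc]
      | zero => rw [mul_zero]; exact AddSubmonoid.zero_mem _
      | add y z _ _ h3 h4 => rw [mul_add]; exact AddSubmonoid.add_mem _ h3 h4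
  have hsub : ∀ x ∈ X, x ∈ S := fun x hx =>
    ⟨hX x hx, fun i => Submodule.subset_span ⟨x, hx, rfl⟩⟩
  refine ⟨S, hsub, ?_, ?_⟩
  · refine noeth_of_span φ G' hG'f ?_
    rintro ⟨t, ht⟩
    have h1 : (⟨t, ht⟩ : S) = φ ⟨t.fst, ht.1⟩ * 1 +
        ∑ i ∈ I, (⟨ge i (co i t), hge i _ (ht.2 i)⟩ : S) := by
      apply Subtype.ext
      rw [mul_one]
      push_cast
      exact decomp I t fun i hi => hN0 i hi _ (ht.2 i)
    rw [h1]
    refine AddSubmonoid.add_mem _ ?_ (AddSubmonoid.sum_mem _ fun i hi => hL i hi _ (ht.2 i) _)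
    exact AddSubmonoid.subset_closure ⟨_, 1, Or.inl rfl, rfl⟩
  · refine noeth_of_span φ' (MulOpposite.unop ⁻¹' G')
      (hG'f.preimage MulOpposite.unop_injective.injOn) ?_
    intro t'
    obtain ⟨⟨t, ht⟩, rfl⟩ := MulOpposite.op_surjective t'
    have h1 : (MulOpposite.op (⟨t, ht⟩ : S)) = φ' ⟨t.fst, ht.1⟩ * 1 +
        ∑ i ∈ I, (MulOpposite.op (⟨ge i (co i t), hge i _ (ht.2 i)⟩ : S)) := by
      apply MulOpposite.unop_injective
      apply Subtype.ext
      rw [mul_one, MulOpposite.unop_add, Finset.unop_sum]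
      push_cast
      exact decomp I t fun i hi => hN0 i hi _ (ht.2 i)
    rw [h1]
    refine AddSubmonoid.add_mem _ ?_ (AddSubmonoid.sum_mem _ fun i hi => hR i hi _ (ht.2 i) _)
    exact AddSubmonoid.subset_closure ⟨_, 1, Or.inl rfl, rfl⟩

end

section
variable {Δ K Λ : Type} [CommRing Δ] [Field K] (l r : Λ → Δ →+* K)

/-- The trivial extension of `Δ` by the direct sum of the bimodules `Bi (l i) (r i)`. -/
def RT : Type := RR l r

noncomputable instance : Ring (RT l r) := inferInstanceAs (Ring (RR l r))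

variable {l r}

/-- projection to `Δ` -/
noncomputable def fR : RT l r →+* Δ where
  toFun := TrivSqZeroExt.fst
  map_one' := rfl
  map_mul' := fst_mul
  map_zero' := rfl
  map_add' := fst_add

/-- inclusion of `Δ` -/
noncomputable def iR : Δ →+* RT l r := inlHom Δ _

theorem fR_iR (a : Δ) : fR (iR a : RT l r) = a := rfl

/-- the element `1` of the summand `i` -/
noncomputable def gR [DecidableEq Λ] (i : Λ) : RT l r := ge (l := l) (r := r) i 1

theorem nec_left' [DecidableEq Λ] (S : Subring (RT l r)) (hS : IsNoetherianRing S) (i : Λ)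
    (V : ValuationSubring K) (hg : (gR i : RT l r) ∈ S) (hl : ∀ x ∈ S, l i (fR x) ∈ V) :
    ∀ x ∈ S, r i (fR x) ∈ V := nec_left S hS i V hg hl

theorem nec_right' [DecidableEq Λ] (S : Subring (RT l r)) (hS : IsNoetherianRing Sᵐᵒᵖ) (i : Λ)
    (V : ValuationSubring K) (hg : (gR i : RT l r) ∈ S) (hl : ∀ x ∈ S, r i (fR x) ∈ V) :
    ∀ x ∈ S, l i (fR x) ∈ V := nec_right S hS i V hg hl

theorem suff' (X : Finset (RT l r)) : ∃ I : Finset Λ, ∀ Δ0 : Subring Δ, IsNoetherianRing Δ0 →
    (∀ i ∈ I, Δ0.map (l i) = Δ0.map (r i)) → (∀ x ∈ X, fR x ∈ Δ0) →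
    ∃ S : Subring (RT l r), (X : Set (RT l r)) ⊆ S ∧ IsNoetherianRing S ∧
      IsNoetherianRing Sᵐᵒᵖ := by
  classical
  let X' : Finset (RR l r) := X
  let I : Finset Λ := X'.biUnion fun x => x.snd.support
  refine ⟨I, fun Δ0 h1 h2 h3 => suff Δ0 h1 I h2 X h3 ?_⟩
  intro x hx i hi
  have : x.snd i = 0 := by
    by_contra h0
    exact hi (Finset.mem_biUnion.2 ⟨x, hx, DFinsupp.mem_support_iff.2 h0⟩)
  rw [co_apply, this, map_zero]

end

end Pool.Agent.E8helper61.FN
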