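import Pool.Agent.E8helper61.FN.Rings

/-!
The F-noetherian ring that is not directed F-noetherian.
-/

set_option autoImplicit false

namespace Pool.Agent.E8helper61.FN

open Polynomial

/-- index set of the gadgets -/
abbrev J : Type := ℤ → ℕ

noncomputable def D (c : J) : Subring K := KS {i | i.2 ≠ c i.1}

abbrev B (c : J) : Type := MvPolynomial ℤ (D c)

noncomputable def rho (c : J) : B c →+* K :=
  MvPolynomial.eval₂Hom (D c).subtype (fun n => (aM (pr (n, c n)))⁻¹)

/-- The commutative ring. -/
abbrev Dl : Type := A × (∀ c : J, B c)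

noncomputable def PD (c : J) : P →+* D c := aM.codRestrict (D c) (aM_mem_KS _)

noncomputable def PA : P →+* A :=
  Ph.codRestrict A (fun p => Subring.subset_closure (Or.inl ⟨p, rfl⟩))

noncomputable def gA (i : ℤ × ℕ) : A :=
  ⟨(Ph (pr i))⁻¹, Subring.subset_closure (Or.inr ⟨i, rfl⟩)⟩

noncomputable def Pd : P →+* Dl := PA.prod (RingHom.pi fun c => MvPolynomial.C.comp (PD c))

noncomputable def l : Option J → Dl →+* K
  | none => ((RingHom.fst K K).comp (RingHom.snd K (K × K))).comp
      (A.subtype.comp (RingHom.fst A _))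
  | some _ => (RingHom.fst K (K × K)).comp (A.subtype.comp (RingHom.fst A _))

noncomputable def r : Option J → Dl →+* K
  | none => ((RingHom.snd K K).comp (RingHom.snd K (K × K))).comp
      (A.subtype.comp (RingHom.fst A _))
  | some c => (rho c).comp ((Pi.evalRingHom _ c).comp (RingHom.snd A _))

theorem l_none (x : Dl) : l none x = x.1.1.2.1 := rfl
theorem l_some (c : J) (x : Dl) : l (some c) x = x.1.1.1 := rfl
theorem r_none (x : Dl) : r none x = x.1.1.2.2 := rfl
theorem r_some (c : J) (x : Dl) : r (some c) x = rho c (x.2 c) := rfl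

theorem rho_C (c : J) (a : D c) : rho c (MvPolynomial.C a) = a := by
  simp [rho]

theorem rho_X (c : J) (n : ℤ) : rho c (MvPolynomial.X n) = (aM (pr (n, c n)))⁻¹ := by
  simp [rho]

theorem rho_mem (c : J) (b : B c) : rho c b ∈ KS Set.univ := by
  induction b using MvPolynomial.induction_on with
  | C a => rw [rho_C]; exact KS_mono (Set.subset_univ _) a.2
  | add p q hp hq => rw [map_add]; exact Subring.add_mem _ hp hq
  | mul_X p n hp =>
    rw [map_mul, rho_X]; exact Subring.mul_mem _ hp (inv_mem_KS (Set.mem_univ _))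

/-- The ring. -/
abbrev Rg : Type := RT l r

theorem inv_notMem_Reg (a : ℤ[X]) (p : P) (hp : p ≠ 0) (h : p.eval a = 0) :
    (aM p)⁻¹ ∉ Reg a := by
  rintro ⟨u, w, hw, h1⟩
  apply hw
  have h2 : w = u * p := by
    apply aM_inj
    have hp' : aM p ≠ 0 := fun h0 => hp (aM_inj (by rw [h0, map_zero]))
    rw [map_mul, ← h1]
    field_simp
  rw [h2, eval_mul, h, mul_zero]

theorem not_directed (F : Finset Rg → Subring Rg)
    (h1 : ∀ X : Finset Rg, (↑X : Set Rg) ⊆ F X ∧ IsNoetherianRing (F X) ∧ IsNoetherianRing (F X)ᵐᵒᵖ)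
    (h2 : ∀ X Y, X ⊆ Y → F X ≤ F Y) : False := by
  classical
  let X0 : Finset Rg := {iR (Pd X), iR (Pd (C X)), iR (gA (0, 0), 0), gR none}
  have hX0 := h1 X0
  have m1 : (iR (gA (0, 0), 0) : Rg) ∈ F X0 := hX0.1 (by simp [X0])
  have m2 : (gR none : Rg) ∈ F X0 := hX0.1 (by simp [X0])
  have claim1 : ∀ n : ℕ, ∃ x ∈ F X0, l none (fR x) ∉ Reg (C (n : ℤ)) := by
    intro n
    induction n with
    | zero =>
      refine ⟨_, m1, ?_⟩
      rw [l_none, fR_iR]
      change (aM (si (pr (0, 0))))⁻¹ ∉ _
      rw [si_pr]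
      exact inv_notMem_Reg _ _ (X_sub_C_ne_zero _) (by simp)
    | succ n ih =>
      obtain ⟨x, hx, hx'⟩ := ih
      by_contra hc
      push Not at hc
      have h3 := nec_left' (F X0) hX0.2.1 none (Reg (C ((n + 1 : ℕ) : ℤ))) m2 hc x hx
      rw [l_none] at hx'
      have h4 := shift (fR x).1.2 _ hx'
      apply h4
      rw [r_none] at h3
      have h5 : ((n + 1 : ℕ) : ℤ) = (n : ℤ) + 1 := by push_cast; rfl
      rw [h5] at h3
      exact h3
  choose x hx hx' using claim1
  have claim2 : ∀ n : ℕ, ∃ k, l (some 0) (fR (x n)) ∉ Reg (al (n, k)) := fun n =>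
    star (fR (x n)).1.2 _ (hx' n)
  choose k hk using claim2
  let c : J := fun z => k z.toNat
  have hcn : ∀ n : ℕ, c n = k n := fun n => by simp [c]
  let X1 : Finset Rg := insert (gR (some c)) X0
  have hX1 := h1 X1
  have hsub : F X0 ≤ F X1 := h2 _ _ (Finset.subset_insert _ _)
  have m3 : (gR (some c) : Rg) ∈ F X1 := hX1.1 (by simp [X1])
  have claim3 : ∀ n : ℕ, ∃ y ∈ F X1, r (some c) (fR y) ∉ Reg (al (n, c n)) := by
    intro n
    by_contra hc
    push Not at hc
    have h3 := nec_right' (F X1) hX1.2.2 (some c) (Reg (al (n, c n))) m3 hc (x n) (hsub (hx n))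
    rw [hcn] at h3
    exact hk n h3
  -- the noetherian image in `B c`
  let ev : F X1 →+* B c := ((Pi.evalRingHom _ c).comp (RingHom.snd A _)).comp
    ((fR (l := l) (r := r)).comp (F X1).subtype)
  haveI : IsNoetherianRing (F X1) := hX1.2.1
  have hB0 : IsNoetherianRing ev.range :=
    isNoetherianRing_of_surjective (F X1) ev.range ev.rangeRestrict ev.rangeRestrict_surjective
  have hPd : ∀ p : P, (iR (Pd p) : Rg) ∈ F X1 := by
    intro p
    refine range_le ((iR (l := l) (r := r)).comp Pd) (F X1) ?_ ?_ p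
    · exact hX1.1 (by simp [X1, X0])
    · exact hX1.1 (by simp [X1, X0])
  have hj : ∀ p : P, (MvPolynomial.C (PD c p) : B c) ∈ ev.range := fun p =>
    ⟨⟨iR (Pd p), hPd p⟩, rfl⟩
  obtain ⟨T, hT⟩ : (RingHom.ker ((rho c).comp ev.range.subtype)).FG := IsNoetherian.noetherian _
  let Vs : Finset ℤ := T.biUnion fun b => b.1.vars
  obtain ⟨_, ⟨n, rfl⟩, hn⟩ :=
    (Set.infinite_range_of_injective (Nat.cast_injective (R := ℤ))).exists_notMem_finset Vs
  let chi : B c →+* K := MvPolynomial.eval₂Hom (D c).subtype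
    (fun m => if m = n then 0 else (aM (pr (m, c m)))⁻¹)
  have hTchi : ∀ b ∈ T, chi b.1 = 0 := by
    intro b hb
    have hb1 : rho c b.1 = 0 := by
      have : b ∈ RingHom.ker ((rho c).comp ev.range.subtype) := by
        rw [← hT]; exact Submodule.subset_span hb
      exact this
    rw [← hb1]
    refine MvPolynomial.eval₂Hom_congr' rfl ?_ rfl
    intro i hi _
    have : i ≠ (n : ℤ) := by
      rintro rfl
      exact hn (Finset.mem_biUnion.2 ⟨b, hb, hi⟩)
    simp only [if_neg this]
  have hker : ∀ b : ev.range, rho c b.1 = 0 → chi b.1 = 0 := by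
    intro b hb
    have h3 : RingHom.ker ((rho c).comp ev.range.subtype) ≤
        RingHom.ker (chi.comp ev.range.subtype) := by
      rw [← hT]
      change Ideal.span (T : Set ev.range) ≤ _
      rw [Ideal.span_le]
      intro b hb
      exact hTchi b hb
    exact h3 hb
  have hchi : ∀ b ∈ ev.range, chi b = rho c b := by
    intro b hb
    obtain ⟨u, v, hv, huv⟩ := IsFractionRing.div_surjective (A := P) (rho c b)
    have hv0 : aM v ≠ 0 := fun h0 => nonZeroDivisors.ne_zero hv (aM_inj (by rw [h0, map_zero]))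
    have e1 : MvPolynomial.C (PD c v) * b - MvPolynomial.C (PD c u) ∈ ev.range :=
      Subring.sub_mem _ (Subring.mul_mem _ (hj v) hb) (hj u)
    have e2 : rho c (MvPolynomial.C (PD c v) * b - MvPolynomial.C (PD c u)) = 0 := by
      rw [map_sub, map_mul, rho_C, rho_C, ← huv]
      change aM v * (aM u / aM v) - aM u = 0
      field_simp
      ring
    have e3 := hker ⟨_, e1⟩ e2
    have hc : ∀ a : D c, chi (MvPolynomial.C a) = a := fun a => by simp [chi]
    simp only [map_sub, map_mul, hc] at e3
    rw [← huv]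
    change aM v * chi b - aM u = 0 at e3
    change chi b = aM u / aM v
    rw [eq_div_iff hv0, mul_comm]
    exact sub_eq_zero.1 e3
  have hreg : ∀ b : B c, chi b ∈ Reg (al (n, c n)) := by
    intro b
    induction b using MvPolynomial.induction_on with
    | C a =>
      have hc : chi (MvPolynomial.C a) = a := by simp [chi]
      rw [hc]
      exact KS_le_Reg (N := {i | i.2 ≠ c i.1}) (by simp) a.2
    | add p q hp hq => rw [map_add]; exact (Reg _).add_mem _ _ hp hq
    | mul_X p m hp =>
      rw [map_mul]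
      refine (Reg _).mul_mem _ _ hp ?_
      have hc : chi (MvPolynomial.X m) = if m = n then 0 else (aM (pr (m, c m)))⁻¹ := by
        simp [chi]
      rw [hc]
      split_ifs with hm
      · exact (Reg _).zero_mem
      · refine inv_mem_Reg _ _ ?_
        rw [pr_eval, sub_ne_zero]
        intro h3
        exact hm (congrArg Prod.fst (al_injective h3)).symm
  obtain ⟨y, hy, hy'⟩ := claim3 n
  apply hy'
  have h6 := hreg (ev ⟨y, hy⟩)
  rw [hchi _ ⟨_, rfl⟩] at h6
  exact h6

noncomputable def gD (c : J) (i : ℤ × ℕ) (h : i.2 ≠ c i.1) : D c :=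
  ⟨(aM (pr i))⁻¹, inv_mem_KS h⟩

theorem fnoeth (X : Finset Rg) : ∃ S : Subring Rg, (↑X : Set Rg) ⊆ S ∧ IsNoetherianRing S ∧
    IsNoetherianRing Sᵐᵒᵖ := by
  classical
  obtain ⟨I, hsuff⟩ := suff' X
  let J0 : Finset J := Finset.eraseNone I
  have hfin : ∀ y : K, ∃ N0 : Finset (ℤ × ℕ), y ∈ KS Set.univ → y ∈ KS N0 := by
    intro y
    by_cases hy : y ∈ KS Set.univ
    · obtain ⟨N0, _, h⟩ := KS_finite hy
      exact ⟨N0, fun _ => h⟩
    · exact ⟨∅, fun h => absurd h hy⟩
  choose Nf hNf using hfin
  let N0 : Finset (ℤ × ℕ) := X.biUnion fun x => Nf ((fR x).1.1.1) ∪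
    J0.biUnion fun c => Nf (rho c ((fR x).2 c))
  have hN1 : ∀ x ∈ X, (fR x).1.1.1 ∈ KS N0 := by
    intro x hx
    refine KS_mono ?_ (hNf _ (A_fst (fR x).1.2))
    intro i hi
    refine Finset.mem_biUnion.2 ⟨x, hx, Finset.mem_union_left _ hi⟩
  have hN2 : ∀ x ∈ X, ∀ c ∈ J0, rho c ((fR x).2 c) ∈ KS N0 := by
    intro x hx c hc
    refine KS_mono ?_ (hNf _ (rho_mem c ((fR x).2 c)))
    intro i hi
    exact Finset.mem_biUnion.2 ⟨x, hx, Finset.mem_union_right _ (Finset.mem_biUnion.2 ⟨c, hc, hi⟩)⟩
  let hh : ℤ → ℕ := fun n => 1 + ∑ c ∈ J0, c n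
  have hhh : ∀ c ∈ J0, ∀ n, hh n ≠ c n := by
    intro c hc n
    have : c n ≤ ∑ c ∈ J0, c n := Finset.single_le_sum (f := fun c : J => c n)
      (fun _ _ => Nat.zero_le _) hc
    simp only [hh]
    omega
  let N : Set (ℤ × ℕ) := (N0 : Set (ℤ × ℕ)) ∪ Set.range fun n => (n, hh n)
  have hN0N : (N0 : Set (ℤ × ℕ)) ⊆ N := Set.subset_union_left
  let e0 : Dl := (1, 0)
  let ec : J → Dl := fun c => (0, Pi.single c 1)
  let yc : J → ℤ → Dl := fun c n => (0, Pi.single c (MvPolynomial.X n))
  let Y : Set Dl := (fun x : Rg => fR x) '' (↑X : Set Rg) ∪ {Pd Polynomial.X, Pd (C Polynomial.X), e0} ∪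
    ec '' (J0 : Set J) ∪ {y | ∃ c ∈ J0, ∃ i ∈ N0, i.2 = c i.1 ∧ y = yc c i.1}
  have hY : Y.Finite := by
    refine Set.Finite.union (Set.Finite.union (Set.Finite.union ?_ ?_) ?_) ?_
    · exact X.finite_toSet.image _
    · exact Set.toFinite _
    · exact J0.finite_toSet.image _
    · refine ((J0 ×ˢ N0).finite_toSet.image (fun q => yc q.1 q.2.1)).subset ?_
      rintro y ⟨c, hc, i, hi, _, rfl⟩
      exact ⟨(c, i), by simp [hc, hi], rfl⟩
  let Z : Set Dl := {z | ∃ i ∈ N, z = (gA i, 1)} ∪
    {z | ∃ c ∈ J0, ∃ i ∈ N, ∃ h : i.2 ≠ c i.1,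
      z = (1, Function.update (1 : (c : J) → B c) c (MvPolynomial.C (gD c i h)))}
  have hPdY : ∀ p, Pd p ∈ Subring.closure Y := by
    intro p
    refine range_le Pd _ (Subring.subset_closure ?_) (Subring.subset_closure ?_) p
    · left; left; right; simp
    · left; left; right; simp
  have he0 : e0 ∈ Subring.closure Y := Subring.subset_closure (by left; left; right; simp)
  have hec : ∀ c ∈ J0, ec c ∈ Subring.closure Y := fun c hc =>
    Subring.subset_closure (by left; right; exact ⟨c, hc, rfl⟩)
  have hZ : ∀ z ∈ Z, ∃ y ∈ Subring.closure Y, y * z = 1 := by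
    rintro z (⟨i, hi, rfl⟩ | ⟨c, hc, i, hi, hne, rfl⟩)
    · refine ⟨Pd (pr i) * e0 + (1 - e0), Subring.add_mem _ (Subring.mul_mem _ (hPdY _) he0)
        (Subring.sub_mem _ (Subring.one_mem _) he0), ?_⟩
      refine Prod.ext ?_ ?_
      · apply Subtype.ext
        change (Ph (pr i) * 1 + (1 - 1)) * (Ph (pr i))⁻¹ = 1
        rw [sub_self, add_zero, mul_one, mul_comm]
        exact Ph_pr_mul i
      · funext c
        change ((MvPolynomial.C (PD c (pr i))) * 0 + (1 - 0)) * 1 = (1 : B c)
        ring
    · refine ⟨Pd (pr i) * ec c + (1 - ec c), Subring.add_mem _ (Subring.mul_mem _ (hPdY _) (hec c hc))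
        (Subring.sub_mem _ (Subring.one_mem _) (hec c hc)), ?_⟩
      refine Prod.ext ?_ ?_
      · change (PA (pr i) * 0 + (1 - 0)) * 1 = (1 : A)
        ring
      · funext c'
        change ((MvPolynomial.C (PD c' (pr i))) * (Pi.single c (1 : B c) : (c : J) → B c) c' +
          (1 - (Pi.single c (1 : B c) : (c : J) → B c) c')) *
          (Function.update (1 : (c : J) → B c) c (MvPolynomial.C (gD c i hne))) c' = 1
        by_cases hcc : c' = c
        · subst hcc
          rw [Pi.single_eq_same, Function.update_self, mul_one, sub_self, add_zero, ← map_mul]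
          have : PD c' (pr i) * gD c' i hne = 1 := by
            apply Subtype.ext
            exact mul_inv_cancel₀ (aM_pr_ne i)
          rw [this, map_one]
        · rw [Pi.single_eq_of_ne hcc, Function.update_of_ne hcc, mul_zero, sub_zero, zero_add,
            one_mul]
          rfl
  have hnoeth := noeth_closure_inv Y hY Z hZ
  set Δ0 : Subring Dl := Subring.closure (Y ∪ Z) with hΔ0
  have hle : Subring.closure Y ≤ Δ0 := Subring.closure_mono Set.subset_union_left
  have hPd0 : ∀ p, Pd p ∈ Δ0 := fun p => hle (hPdY p)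
  have hg0 : ∀ i ∈ N, ((gA i, 1) : Dl) ∈ Δ0 := fun i hi =>
    Subring.subset_closure (Or.inr (Or.inl ⟨i, hi, rfl⟩))
  have hI : ∀ i ∈ I, Δ0.map (l i) = Δ0.map (r i) := by
    intro i hi
    cases i with
    | none =>
      have e1 : Δ0.map (l none) = W := by
        apply le_antisymm
        · rw [Subring.map_le_iff_le_comap]
          intro x _
          exact A_snd1 x.1.2
        · unfold W
          rw [Subring.closure_le]
          rintro _ (⟨p, rfl⟩ | ⟨⟨n, h⟩, rfl⟩)
          · exact ⟨Pd p, hPd0 p, rfl⟩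
          · refine ⟨(gA (n, hh n), 1), hg0 _ (Or.inr ⟨n, rfl⟩), ?_⟩
            change (t1 (pr (n, hh n)))⁻¹ = (t1 (pr (n, h)))⁻¹
            rw [t1_pr n (hh n) h]
      have e2 : Δ0.map (r none) = W := by
        apply le_antisymm
        · rw [Subring.map_le_iff_le_comap]
          intro x _
          exact A_snd2 x.1.2
        · unfold W
          rw [Subring.closure_le]
          rintro _ (⟨p, rfl⟩ | ⟨⟨n, h⟩, rfl⟩)
          · exact ⟨Pd (sh (si p)), hPd0 _, (t1_eq_t2 p).symm⟩
          · refine ⟨(gA (n - 1, hh (n - 1)), 1), hg0 _ (Or.inr ⟨n - 1, rfl⟩), ?_⟩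
            change (t2 (pr (n - 1, hh (n - 1))))⁻¹ = (t1 (pr (n, h)))⁻¹
            rw [t2_pr]
            simp only [sub_add_cancel]
            rw [t1_pr n 0 h]
      rw [e1, e2]
    | some c =>
      have hc : c ∈ J0 := Finset.mem_eraseNone.2 hi
      have e1 : Δ0.map (l (some c)) = KS N := by
        apply le_antisymm
        · rw [Subring.map_le_iff_le_comap, hΔ0, Subring.closure_le]
          rintro x ((((⟨x, hx, rfl⟩ | hx) | ⟨c', hc', rfl⟩) | ⟨c', hc', i, hi, hi', rfl⟩) |
            (⟨i, hi, rfl⟩ | ⟨c', hc', i, hi, hne, rfl⟩))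
          · exact KS_mono hN0N (hN1 x hx)
          · rcases hx with rfl | rfl | rfl
            · exact aM_mem_KS _ _
            · exact aM_mem_KS _ _
            · exact (KS N).one_mem
          · exact (KS N).zero_mem
          · exact (KS N).zero_mem
          · exact inv_mem_KS hi
          · exact (KS N).one_mem
        · unfold KS
          rw [Subring.closure_le]
          rintro _ (⟨p, rfl⟩ | ⟨i, hi, rfl⟩)
          · exact ⟨Pd p, hPd0 p, rfl⟩
          · exact ⟨(gA i, 1), hg0 _ hi, rfl⟩
      have e2 : Δ0.map (r (some c)) = KS N := by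
        apply le_antisymm
        · rw [Subring.map_le_iff_le_comap, hΔ0, Subring.closure_le]
          have hsingle : ∀ (c' : J) (b : B c'), rho c' b ∈ KS N →
              rho c ((Pi.single c' b : (c : J) → B c) c) ∈ KS N := by
            intro c' b hb
            by_cases hcc : c = c'
            · subst hcc
              rw [Pi.single_eq_same]; exact hb
            · rw [Pi.single_eq_of_ne hcc, map_zero]; exact Subring.zero_mem _
          rintro x ((((⟨x, hx, rfl⟩ | hx) | ⟨c', hc', rfl⟩) | ⟨c', hc', i, hi, hi', rfl⟩) |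
            (⟨i, hi, rfl⟩ | ⟨c', hc', i, hi, hne, rfl⟩))
          · exact KS_mono hN0N (hN2 x hx c hc)
          · rcases hx with rfl | rfl | rfl
            · change rho c (MvPolynomial.C (PD c _)) ∈ KS N
              rw [rho_C]; exact aM_mem_KS _ _
            · change rho c (MvPolynomial.C (PD c _)) ∈ KS N
              rw [rho_C]; exact aM_mem_KS _ _
            · change rho c 0 ∈ KS N
              rw [map_zero]; exact Subring.zero_mem _
          · exact hsingle c' 1 (by rw [map_one]; exact Subring.one_mem _)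
          · refine hsingle c' _ ?_
            rw [rho_X, ← hi']
            exact inv_mem_KS (hN0N hi)
          · change rho c 1 ∈ KS N
            rw [map_one]; exact Subring.one_mem _
          · change rho c ((Function.update (1 : (c : J) → B c) c' (MvPolynomial.C (gD c' i hne))) c) ∈ KS N
            by_cases hcc : c = c'
            · subst hcc
              rw [Function.update_self, rho_C]; exact inv_mem_KS hi
            · rw [Function.update_of_ne hcc, Pi.one_apply, map_one]; exact Subring.one_mem _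
        · have h4 : ∀ x ∈ (Set.range aM ∪ (fun i => (aM (pr i))⁻¹) '' N : Set K),
              x ∈ Δ0.map (r (some c)) := by
            rintro _ (⟨p, rfl⟩ | ⟨i, hi, rfl⟩)
            · refine ⟨Pd p, hPd0 p, ?_⟩
              change rho c (MvPolynomial.C (PD c p)) = aM p
              rw [rho_C]; rfl
            · by_cases hic : i.2 = c i.1
              · have hiN0 : i ∈ N0 := by
                  rcases hi with hi | ⟨n, rfl⟩
                  · exact hi
                  · exact absurd hic (hhh c hc n)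
                refine ⟨yc c i.1, hle (Subring.subset_closure (Or.inr ⟨c, hc, i, hiN0, hic, rfl⟩)), ?_⟩
                change rho c ((Pi.single c (MvPolynomial.X i.1) : (c : J) → B c) c) = _
                rw [Pi.single_eq_same, rho_X, ← hic]
              · refine ⟨(1, Function.update (1 : (c : J) → B c) c (MvPolynomial.C (gD c i hic))),
                  Subring.subset_closure (Or.inr (Or.inr ⟨c, hc, i, hi, hic, rfl⟩)), ?_⟩
                change rho c ((Function.update (1 : (c : J) → B c) c (MvPolynomial.C (gD c i hic))) c) = _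
                rw [Function.update_self, rho_C]; rfl
          exact Subring.closure_le.2 h4
      rw [e1, e2]
  refine hsuff Δ0 hnoeth hI ?_
  intro x hx
  refine hle (Subring.subset_closure ?_)
  left; left; left
  exact ⟨x, hx, rfl⟩

end Pool.Agent.E8helper61.FN
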