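import Pool.Agent.E8helper61.FN.Bi

/-!
The concrete commutative rings.
-/

set_option autoImplicit false

namespace Pool.Agent.E8helper61.FN

open Polynomial

/-- `ℤ[δ][s]` -/
abbrev P : Type := Polynomial (Polynomial ℤ)

/-- The field `ℚ(δ, s)`. -/
abbrev K : Type := FractionRing P

/-- `n + h δ` -/
noncomputable def al (i : ℤ × ℕ) : ℤ[X] := C i.1 + C (i.2 : ℤ) * X

/-- The prime `s - n - h δ` -/
noncomputable def pr (i : ℤ × ℕ) : P := X - C (al i)

theorem al_zero (n : ℤ) : al (n, 0) = C n := by simp [al]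

theorem al_eval (i : ℤ × ℕ) (x : ℤ) : (al i).eval x = i.1 + i.2 * x := by simp [al]

theorem al_injective : Function.Injective al := by
  intro i j h
  have h0 := congrArg (Polynomial.eval 0) h
  have h1 := congrArg (Polynomial.eval 1) h
  rw [al_eval, al_eval] at h0 h1
  simp only [mul_zero, add_zero, mul_one] at h0 h1
  rw [h0] at h1
  exact Prod.ext h0 (by exact_mod_cast add_left_cancel h1)

noncomputable abbrev aM : P →+* K := algebraMap P K

theorem aM_inj : Function.Injective aM := IsFractionRing.injective P K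

theorem factor (a : ℤ[X]) (p : P) (hp : p ≠ 0) :
    ∃ k : ℕ, ∃ q : P, p = (X - C a) ^ k * q ∧ q.eval a ≠ 0 := by
  obtain ⟨q, hq, hn⟩ := Polynomial.exists_eq_pow_rootMultiplicity_mul_and_not_dvd p hp a
  exact ⟨_, q, hq, fun h => hn (dvd_iff_isRoot.2 h)⟩

/-- Rational functions regular along `s = a`. -/
noncomputable def Reg (a : ℤ[X]) : ValuationSubring K where
  carrier := {x | ∃ u w : P, w.eval a ≠ 0 ∧ x * aM w = aM u}
  mul_mem' := by
    rintro x y ⟨u, w, hw, h⟩ ⟨u', w', hw', h'⟩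
    refine ⟨u * u', w * w', by rw [eval_mul]; exact mul_ne_zero hw hw', ?_⟩
    rw [map_mul, map_mul, ← h, ← h']; ring
  one_mem' := ⟨1, 1, by simp, by simp⟩
  add_mem' := by
    rintro x y ⟨u, w, hw, h⟩ ⟨u', w', hw', h'⟩
    refine ⟨u * w' + u' * w, w * w', by rw [eval_mul]; exact mul_ne_zero hw hw', ?_⟩
    rw [map_add, map_mul, map_mul, map_mul, ← h, ← h']; ring
  zero_mem' := ⟨0, 1, by simp, by simp⟩
  neg_mem' := by
    rintro x ⟨u, w, hw, h⟩
    exact ⟨-u, w, hw, by rw [map_neg, ← h]; ring⟩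
  mem_or_inv_mem' := by
    intro x
    obtain ⟨u, v, hv, rfl⟩ := IsFractionRing.div_surjective (A := P) x
    have hv0 : v ≠ 0 := nonZeroDivisors.ne_zero hv
    by_cases hu0 : u = 0
    · left
      refine ⟨0, 1, by simp, by simp [hu0]⟩
    obtain ⟨k, u', hu, hu'⟩ := factor a u hu0
    obtain ⟨m, v', hvv, hv'⟩ := factor a v hv0
    have hX : (X - C a : P) ≠ 0 := X_sub_C_ne_zero a
    have e1 : aM (X - C a) ≠ 0 := fun h => hX (aM_inj (by rw [h, map_zero]))
    have e2 : aM u' ≠ 0 := fun h => hu' (by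
      have : u' = 0 := aM_inj (by rw [h, map_zero])
      rw [this, eval_zero])
    have e3 : aM v' ≠ 0 := fun h => hv' (by
      have : v' = 0 := aM_inj (by rw [h, map_zero])
      rw [this, eval_zero])
    rcases le_total m k with h | h
    · left
      obtain ⟨d, rfl⟩ := Nat.exists_eq_add_of_le h
      refine ⟨(X - C a) ^ d * u', v', hv', ?_⟩
      rw [hu, hvv, map_mul, map_mul, map_mul, map_pow, map_pow, map_pow, pow_add]
      field_simp
    · right
      obtain ⟨d, rfl⟩ := Nat.exists_eq_add_of_le h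
      refine ⟨(X - C a) ^ d * v', u', hu', ?_⟩
      rw [hu, hvv, map_mul, map_mul, map_mul, map_pow, map_pow, map_pow, pow_add]
      field_simp

theorem mem_Reg {a : ℤ[X]} {x : K} : x ∈ Reg a ↔ ∃ u w : P, w.eval a ≠ 0 ∧ x * aM w = aM u :=
  Iff.rfl

theorem aM_mem_Reg (a : ℤ[X]) (p : P) : aM p ∈ Reg a := ⟨p, 1, by simp, by simp⟩

theorem inv_mem_Reg (a : ℤ[X]) (p : P) (h : p.eval a ≠ 0) : (aM p)⁻¹ ∈ Reg a := by
  refine ⟨1, p, h, ?_⟩
  rw [map_one, inv_mul_cancel₀]
  intro h0
  apply h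
  have : p = 0 := aM_inj (by rw [h0, map_zero])
  rw [this, eval_zero]

theorem pr_eval (i : ℤ × ℕ) (a : ℤ[X]) : (pr i).eval a = a - al i := by simp [pr]

/-- specialisation `δ ↦ 0` -/
noncomputable def si : P →+* P := mapRingHom (C.comp (evalRingHom 0))

/-- shift `s ↦ s + 1` -/
noncomputable def sh : P →+* P := eval₂RingHom C (X + 1)

/-- shift `s ↦ s - 1` -/
noncomputable def sh' : P →+* P := eval₂RingHom C (X - 1)

theorem si_C (a : ℤ[X]) : si (C a) = C (C (a.eval 0)) := by simp [si]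
theorem si_X : si X = X := by simp [si]
theorem sh_C (a : ℤ[X]) : sh (C a) = C a := by simp [sh]
theorem sh_X : sh X = X + 1 := by simp [sh]
theorem sh'_C (a : ℤ[X]) : sh' (C a) = C a := by simp [sh']
theorem sh'_X : sh' X = X - 1 := by simp [sh']

theorem sh_sh' (p : P) : sh (sh' p) = p := by
  have : sh.comp sh' = RingHom.id P := by
    apply Polynomial.ringHom_ext
    · intro a; rw [RingHom.comp_apply, sh'_C, sh_C, RingHom.id_apply]
    · rw [RingHom.comp_apply, sh'_X, map_sub, sh_X, map_one, RingHom.id_apply]; ring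
  exact congrArg (fun f : P →+* P => f p) this

theorem sh'_sh (p : P) : sh' (sh p) = p := by
  have : sh'.comp sh = RingHom.id P := by
    apply Polynomial.ringHom_ext
    · intro a; rw [RingHom.comp_apply, sh_C, sh'_C, RingHom.id_apply]
    · rw [RingHom.comp_apply, sh_X, map_add, sh'_X, map_one, RingHom.id_apply]; ring
  exact congrArg (fun f : P →+* P => f p) this

theorem si_si (p : P) : si (si p) = si p := by
  have : si.comp si = si := by
    apply Polynomial.ringHom_ext
    · intro a; rw [RingHom.comp_apply, si_C, si_C, eval_C]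
    · rw [RingHom.comp_apply, si_X, si_X]
  exact congrArg (fun f : P →+* P => f p) this

theorem si_sh' (p : P) : si (sh' (si p)) = sh' (si p) := by
  have : (si.comp sh').comp si = sh'.comp si := by
    apply Polynomial.ringHom_ext
    · intro a
      rw [RingHom.comp_apply, RingHom.comp_apply, RingHom.comp_apply, si_C, sh'_C, si_C, eval_C]
    · rw [RingHom.comp_apply, RingHom.comp_apply, RingHom.comp_apply, si_X, sh'_X, map_sub, si_X,
        map_one]
  exact congrArg (fun f : P →+* P => f p) this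

theorem si_sh (p : P) : si (sh (si p)) = sh (si p) := by
  have : (si.comp sh).comp si = sh.comp si := by
    apply Polynomial.ringHom_ext
    · intro a
      rw [RingHom.comp_apply, RingHom.comp_apply, RingHom.comp_apply, si_C, sh_C, si_C, eval_C]
    · rw [RingHom.comp_apply, RingHom.comp_apply, RingHom.comp_apply, si_X, sh_X, map_add, si_X,
        map_one]
  exact congrArg (fun f : P →+* P => f p) this

theorem si_pr (i : ℤ × ℕ) : si (pr i) = X - C (C i.1) := by
  rw [pr, map_sub, si_X, si_C, al_eval, mul_zero, add_zero]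

theorem sh'_si_pr (i : ℤ × ℕ) : sh' (si (pr i)) = si (pr (i.1 + 1, 0)) := by
  rw [si_pr, si_pr, map_sub, sh'_X, sh'_C]
  simp only [map_add, map_one]
  ring

theorem sh_eval (p : P) (n : ℤ) : (sh p).eval (C n) = p.eval (C (n + 1)) := by
  have : ((evalRingHom (C n : ℤ[X])).comp sh) = evalRingHom (C (n + 1) : ℤ[X]) := by
    apply Polynomial.ringHom_ext
    · intro a; simp [sh]
    · simp [sh]
  exact congrArg (fun f : P →+* ℤ[X] => f p) this

/-- three homomorphisms `P → K` -/
noncomputable def t1 : P →+* K := aM.comp si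
noncomputable def t2 : P →+* K := aM.comp (sh'.comp si)

/-- The diagonal homomorphism -/
noncomputable def Ph : P →+* K × K × K := aM.prod (t1.prod t2)

theorem t1_pr_ne (i : ℤ × ℕ) : t1 (pr i) ≠ 0 := by
  intro h
  have h1 : si (pr i) = 0 := aM_inj (by rw [map_zero]; exact h)
  rw [si_pr] at h1
  exact X_sub_C_ne_zero _ h1

theorem t2_pr (i : ℤ × ℕ) : t2 (pr i) = t1 (pr (i.1 + 1, 0)) := by
  change aM (sh' (si (pr i))) = aM (si (pr (i.1 + 1, 0)))
  rw [sh'_si_pr]

theorem t1_pr (n : ℤ) (h h' : ℕ) : t1 (pr (n, h)) = t1 (pr (n, h')) := by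
  change aM (si (pr (n, h))) = aM (si (pr (n, h')))
  rw [si_pr, si_pr]

theorem t2_pr_ne (i : ℤ × ℕ) : t2 (pr i) ≠ 0 := by
  rw [t2_pr]; exact t1_pr_ne _

theorem aM_pr_ne (i : ℤ × ℕ) : aM (pr i) ≠ 0 := by
  intro h
  have h1 : pr i = 0 := aM_inj (by rw [map_zero]; exact h)
  exact X_sub_C_ne_zero _ h1

theorem t2_eq_t1 (p : P) : t2 p = t1 (sh' (si p)) := by
  change aM (sh' (si p)) = aM (si (sh' (si p)))
  rw [si_sh']

theorem t1_eq_t2 (p : P) : t1 p = t2 (sh (si p)) := by
  change aM (si p) = aM (sh' (si (sh (si p))))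
  rw [si_sh, sh'_sh]

/-- the ring `P` is generated by two elements -/
theorem closure_P : Subring.closure ({X, C X} : Set P) = ⊤ := by
  rw [eq_top_iff]
  have hC : ∀ a : ℤ[X], (C a : P) ∈ Subring.closure ({X, C X} : Set P) := by
    intro a
    induction a using Polynomial.induction_on' with
    | add p q hp hq => rw [map_add]; exact Subring.add_mem _ hp hq
    | monomial m z =>
      rw [← C_mul_X_pow_eq_monomial, map_mul, map_pow]
      refine Subring.mul_mem _ ?_ (Subring.pow_mem _ (Subring.subset_closure (by simp)) m)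
      have : (C (C z) : P) = (z : P) := by simp
      rw [this]
      exact intCast_mem _ z
  intro p _
  induction p using Polynomial.induction_on' with
  | add p q hp hq => exact Subring.add_mem _ (hp trivial) (hq trivial)
  | monomial n a =>
    rw [← C_mul_X_pow_eq_monomial]
    exact Subring.mul_mem _ (hC a) (Subring.pow_mem _ (Subring.subset_closure (by simp)) n)

theorem range_le {T : Type*} [Ring T] (f : P →+* T) (S : Subring T) (h1 : f X ∈ S)
    (h2 : f (C X) ∈ S) (p : P) : f p ∈ S := by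
  have h : Subring.closure ({X, C X} : Set P) ≤ S.comap f := by
    rw [Subring.closure_le]
    rintro x (rfl | rfl)
    · exact h1
    · exact h2
  rw [closure_P] at h
  exact h (Subring.mem_top p)

/-- subrings of `K` -/
noncomputable def KS (N : Set (ℤ × ℕ)) : Subring K :=
  Subring.closure (Set.range aM ∪ (fun i => (aM (pr i))⁻¹) '' N)

theorem KS_mono {N N' : Set (ℤ × ℕ)} (h : N ⊆ N') : KS N ≤ KS N' :=
  Subring.closure_mono (Set.union_subset_union_right _ (Set.image_mono h))

theorem aM_mem_KS (N : Set (ℤ × ℕ)) (p : P) : aM p ∈ KS N :=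
  Subring.subset_closure (Or.inl ⟨p, rfl⟩)

theorem inv_mem_KS {N : Set (ℤ × ℕ)} {i : ℤ × ℕ} (h : i ∈ N) : (aM (pr i))⁻¹ ∈ KS N :=
  Subring.subset_closure (Or.inr ⟨i, h, rfl⟩)

theorem KS_finite {N : Set (ℤ × ℕ)} {x : K} (hx : x ∈ KS N) :
    ∃ N0 : Finset (ℤ × ℕ), (N0 : Set (ℤ × ℕ)) ⊆ N ∧ x ∈ KS N0 := by
  classical
  induction hx using Subring.closure_induction with
  | mem x hx =>
    rcases hx with ⟨p, rfl⟩ | ⟨i, hi, rfl⟩
    · exact ⟨∅, by simp, aM_mem_KS _ p⟩
    · exact ⟨{i}, by simpa using hi, inv_mem_KS (by simp)⟩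
  | zero => exact ⟨∅, by simp, Subring.zero_mem _⟩
  | one => exact ⟨∅, by simp, Subring.one_mem _⟩
  | add x y _ _ hx hy =>
    obtain ⟨N1, h1, h1'⟩ := hx
    obtain ⟨N2, h2, h2'⟩ := hy
    exact ⟨N1 ∪ N2, by simp [h1, h2], Subring.add_mem _ (KS_mono (by simp) h1')
      (KS_mono (by simp) h2')⟩
  | neg x _ hx =>
    obtain ⟨N1, h1, h1'⟩ := hx
    exact ⟨N1, h1, Subring.neg_mem _ h1'⟩
  | mul x y _ _ hx hy =>
    obtain ⟨N1, h1, h1'⟩ := hx
    obtain ⟨N2, h2, h2'⟩ := hy
    exact ⟨N1 ∪ N2, by simp [h1, h2], Subring.mul_mem _ (KS_mono (by simp) h1')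
      (KS_mono (by simp) h2')⟩

theorem KS_le_Reg {N : Set (ℤ × ℕ)} {i : ℤ × ℕ} (h : i ∉ N) {x : K} (hx : x ∈ KS N) :
    x ∈ Reg (al i) := by
  have : KS N ≤ (Reg (al i)).toSubring := by
    unfold KS
    rw [Subring.closure_le]
    rintro x (⟨p, rfl⟩ | ⟨j, hj, rfl⟩)
    · exact aM_mem_Reg _ p
    · refine inv_mem_Reg _ _ ?_
      rw [pr_eval, sub_ne_zero]
      intro h'
      exact h (al_injective h' ▸ hj)
  exact this hx

/-- the subring generated by specialisations -/
noncomputable def W : Subring K :=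
  Subring.closure (Set.range t1 ∪ Set.range (fun i => (t1 (pr i))⁻¹))

/-- The ring `A`. -/
noncomputable def A : Subring (K × K × K) :=
  Subring.closure (Set.range Ph ∪ Set.range (fun i => (Ph (pr i))⁻¹))

theorem A_fst {f : K × K × K} (hf : f ∈ A) : f.1 ∈ KS Set.univ := by
  have : A ≤ (KS Set.univ).comap (RingHom.fst K (K × K)) := by
    unfold A
    rw [Subring.closure_le]
    rintro x (⟨p, rfl⟩ | ⟨i, rfl⟩)
    · exact aM_mem_KS _ p
    · exact inv_mem_KS (Set.mem_univ i)
  exact this hf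

theorem A_snd1 {f : K × K × K} (hf : f ∈ A) : f.2.1 ∈ W := by
  have : A ≤ W.comap ((RingHom.fst K K).comp (RingHom.snd K (K × K))) := by
    unfold A
    rw [Subring.closure_le]
    rintro x (⟨p, rfl⟩ | ⟨i, rfl⟩)
    · exact Subring.subset_closure (Or.inl ⟨p, rfl⟩)
    · exact Subring.subset_closure (Or.inr ⟨i, rfl⟩)
  exact this hf

theorem A_snd2 {f : K × K × K} (hf : f ∈ A) : f.2.2 ∈ W := by
  have : A ≤ W.comap ((RingHom.snd K K).comp (RingHom.snd K (K × K))) := by
    unfold A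
    rw [Subring.closure_le]
    rintro x (⟨p, rfl⟩ | ⟨i, rfl⟩)
    · refine Subring.subset_closure (Or.inl ⟨sh' (si p), ?_⟩)
      exact (t2_eq_t1 p).symm
    · refine Subring.subset_closure (Or.inr ⟨(i.1 + 1, 0), ?_⟩)
      change (t1 (pr (i.1 + 1, 0)))⁻¹ = (t2 (pr i))⁻¹
      rw [t2_pr]
  exact this hf

theorem Ph_pr_mul (i : ℤ × ℕ) : (Ph (pr i))⁻¹ * Ph (pr i) = 1 := by
  refine Prod.ext ?_ (Prod.ext ?_ ?_)
  · exact inv_mul_cancel₀ (aM_pr_ne i)
  · exact inv_mul_cancel₀ (t1_pr_ne i)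
  · exact inv_mul_cancel₀ (t2_pr_ne i)

theorem A_rep {f : K × K × K} (hf : f ∈ A) :
    ∃ u : P, ∃ m : Multiset (ℤ × ℕ), f * Ph (m.map pr).prod = Ph u := by
  induction hf using Subring.closure_induction with
  | mem x hx =>
    rcases hx with ⟨p, rfl⟩ | ⟨i, rfl⟩
    · exact ⟨p, 0, by simp⟩
    · refine ⟨1, {i}, ?_⟩
      rw [Multiset.map_singleton, Multiset.prod_singleton, map_one]
      exact Ph_pr_mul i
  | zero => exact ⟨0, 0, by simp⟩
  | one => exact ⟨1, 0, by simp⟩
  | add x y _ _ hx hy =>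
    obtain ⟨u, m, h⟩ := hx
    obtain ⟨u', m', h'⟩ := hy
    refine ⟨u * (m'.map pr).prod + u' * (m.map pr).prod, m + m', ?_⟩
    rw [Multiset.map_add, Multiset.prod_add, map_mul, map_add, map_mul, map_mul, ← h, ← h']
    ring
  | neg x _ hx =>
    obtain ⟨u, m, h⟩ := hx
    exact ⟨-u, m, by rw [neg_mul, h, map_neg]⟩
  | mul x y _ _ hx hy =>
    obtain ⟨u, m, h⟩ := hx
    obtain ⟨u', m', h'⟩ := hy
    refine ⟨u * u', m + m', ?_⟩
    rw [Multiset.map_add, Multiset.prod_add, map_mul, map_mul, ← h, ← h']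
    ring

theorem star_aux (n : ℤ) (k : ℕ) : ∀ (m : Multiset (ℤ × ℕ)) (_ : m.card = k) (u : P) (f g : K)
    (_ : f * aM (m.map pr).prod = aM u) (_ : g * t1 (m.map pr).prod = t1 u)
    (_ : ∀ h, f ∈ Reg (al (n, h))), g ∈ Reg (C n) := by
  induction k with
  | zero =>
    intro m hm u f g h1 h2 _
    rw [Multiset.card_eq_zero] at hm
    subst hm
    rw [Multiset.map_zero, Multiset.prod_zero, map_one, mul_one] at h2
    rw [h2]
    exact aM_mem_Reg _ _
  | succ k ih =>
    intro m hm u f g h1 h2 h3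
    by_cases hc : ∃ i ∈ m, i.1 = n
    · obtain ⟨⟨n', h⟩, him, hin⟩ := hc
      simp only at hin
      subst hin
      obtain ⟨m', rfl⟩ := Multiset.exists_cons_of_mem him
      obtain ⟨u', w, hw, hf⟩ := h3 h
      rw [Multiset.map_cons, Multiset.prod_cons] at h1 h2
      have e1 : u * w = u' * (pr (n', h) * (m'.map pr).prod) := by
        apply aM_inj
        rw [map_mul, map_mul, ← h1, ← hf]
        ring
      have e2 : u.eval (al (n', h)) = 0 := by
        have := congrArg (Polynomial.eval (al (n', h))) e1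
        rw [eval_mul, eval_mul, eval_mul, pr_eval, sub_self, zero_mul, mul_zero] at this
        exact (mul_eq_zero.1 this).resolve_right hw
      obtain ⟨u1, hu1⟩ := dvd_iff_isRoot.2 e2
      have e3 : u = pr (n', h) * u1 := hu1
      refine ih m' (by simpa using hm) u1 f g ?_ ?_ h3
      · apply mul_left_cancel₀ (aM_pr_ne (n', h))
        rw [← map_mul, ← e3, ← h1, map_mul]
        ring
      · apply mul_left_cancel₀ (t1_pr_ne (n', h))
        rw [← map_mul, ← e3, ← h2, map_mul]
        ring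
    · push Not at hc
      refine ⟨si u, si (m.map pr).prod, ?_, h2⟩
      rw [map_multiset_prod, Multiset.map_map, eval_multiset_prod, Multiset.map_map]
      intro h0
      rw [Multiset.prod_eq_zero_iff, Multiset.mem_map] at h0
      obtain ⟨i, hi, h4⟩ := h0
      simp only [Function.comp_apply, si_pr, eval_sub, eval_X, eval_C] at h4
      apply hc i hi
      have h5 := C_injective (sub_eq_zero.1 h4)
      exact h5.symm

theorem star {f : K × K × K} (hf : f ∈ A) (n : ℤ) (h : f.2.1 ∉ Reg (C n)) :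
    ∃ k, f.1 ∉ Reg (al (n, k)) := by
  by_contra hc
  push Not at hc
  obtain ⟨u, m, hm⟩ := A_rep hf
  exact h (star_aux n _ m rfl u f.1 f.2.1 (congrArg (fun x : K × K × K => x.1) hm)
    (congrArg (fun x : K × K × K => x.2.1) hm) hc)

theorem shift {f : K × K × K} (hf : f ∈ A) (n : ℤ) (h : f.2.1 ∉ Reg (C n)) :
    f.2.2 ∉ Reg (C (n + 1)) := by
  rintro ⟨u', w, hw, h'⟩
  apply h
  obtain ⟨u, m, hm⟩ := A_rep hf
  set v := (m.map pr).prod
  have h1 : f.2.1 * aM (si v) = aM (si u) := congrArg (fun x : K × K × K => x.2.1) hm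
  have h2 : f.2.2 * aM (sh' (si v)) = aM (sh' (si u)) := congrArg (fun x : K × K × K => x.2.2) hm
  have e1 : u' * sh' (si v) = sh' (si u) * w := by
    apply aM_inj
    rw [map_mul, map_mul, ← h', ← h2]; ring
  have e2 : sh u' * si v = si u * sh w := by
    have := congrArg sh e1
    rwa [map_mul, map_mul, sh_sh', sh_sh'] at this
  refine ⟨sh u', sh w, by rw [sh_eval]; exact hw, ?_⟩
  have hv : aM (si v) ≠ 0 := by
    have : aM (si v) = t1 v := rfl
    rw [this]
    intro h0
    rw [map_multiset_prod, Multiset.map_map, Multiset.prod_eq_zero_iff, Multiset.mem_map] at h0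
    obtain ⟨i, _, h4⟩ := h0
    exact t1_pr_ne i h4
  apply mul_right_cancel₀ hv
  rw [← map_mul aM (sh u'), e2, map_mul, ← h1]
  ring

end Pool.Agent.E8helper61.FN
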